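import Pool.Agent.Q289.KK.Defs

/-!
# Statements of the lemmas of the project KK (Kikuchi matrices)
-/

set_option autoImplicit false

namespace Q289.KK

open MeasureTheory ProbabilityTheory

/-- one-dimensional facts on the Hermite polynomials -/
def HeStm : Prop :=
  (∀ (u : ℕ) (x : ℝ), x * he u x = he (u + 1) x + u * he (u - 1) x) ∧
  (∀ (u : ℕ) (q : ℕ), MemLp (he u) q (gaussianReal 0 1)) ∧
  (∀ u : ℕ, ∫ x, he u x ∂(gaussianReal 0 1) = if u = 0 then 1 else 0)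

/-- the recursion of the mixed moments -/
def RecStm : Prop :=
  ∀ (n ℓ r : ℕ) (I J : Sb n ℓ) (U : Finset (Fin n) → ℕ),
    (FF r ℓ 0 I J U = if I = J ∧ U = 0 then 1 else 0) ∧
    (∀ m : ℕ, Integrable (fun Z => (W r ℓ 0 Z ^ m) I J) (G n)) ∧
    (∀ m : ℕ, FF r ℓ (m + 1) I J U = ∑ K ∈ nb r I,
      (FF r ℓ m K J (U + Pi.single (symmDiff I.1 K.1) 1) +
        (U (symmDiff I.1 K.1) : ℝ) * FF r ℓ m K J (U - Pi.single (symmDiff I.1 K.1) 1)))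

/-- the excess potential grows by at most `2 k` in a new step, and not at all in a fresh one -/
def UpStm : Prop :=
  ∀ (n k : ℕ) (I J : Finset (Fin n)) (U : Finset (Fin n) → ℕ),
    I.card = J.card → (symmDiff I J).card = 2 * k →
    Ph J (U + Pi.single (symmDiff I J) 1) ≤ Ph I U + 2 * k ∧
    ((∀ x ∈ J \ I, dU U x = 0) → Ph J (U + Pi.single (symmDiff I J) 1) ≤ Ph I U)

/-- the excess potential does not grow in a return step -/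
def DownStm : Prop :=
  ∀ (n : ℕ) (I J : Finset (Fin n)) (U : Finset (Fin n) → ℕ),
    1 ≤ U (symmDiff I J) → Ph J (U - Pi.single (symmDiff I J) 1) ≤ Ph I U

/-- the number of return steps -/
def RetStm : Prop :=
  ∀ (n ℓ k : ℕ) (I : Sb n ℓ) (U : Finset (Fin n) → ℕ),
    k * ∑ J ∈ nb (2 * k) I, U (symmDiff I.1 J.1) ≤ ℓ + Ph I.1 U

/-- the number of neighbours -/
def CardStm : Prop :=
  ∀ (n ℓ k : ℕ) (I : Sb n ℓ), (nb (2 * k) I).card = dg n ℓ k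

/-- the number of non-fresh neighbours -/
def NfStm : Prop :=
  ∀ (n ℓ k : ℕ) (I : Sb n ℓ) (U : Finset (Fin n) → ℕ), 1 ≤ k → ℓ < n →
    (∀ S, U S ≠ 0 → S.card = 2 * k) →
    (nf (2 * k) I U).card * (n - ℓ) ≤ 2 * k * (∑ S, U S) * (k * dg n ℓ k)

/-- the moment bound -/
def MomStm : Prop :=
  ∀ (n ℓ k p : ℕ) (η : ℝ), 1 ≤ k → k ≤ ℓ → ℓ + k ≤ n → 0 ≤ η →
    4 * (k : ℝ) ^ 2 * p / (n - ℓ) * Real.exp (4 * k * p / ℓ) ≤ η →
    ∀ I : Sb n ℓ, |FF (2 * k) ℓ (2 * p) I I 0| ≤ ((2 + η) ^ 2 * (dg n ℓ k) * (ℓ / k)) ^ p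

/-- spectral package of a real symmetric matrix -/
def SpecStm : Prop :=
  ∀ (ι : Type) [Fintype ι] [DecidableEq ι] (M : Matrix ι ι ℝ), M.IsSymm →
    ∃ lam : ι → ℝ, (∀ i, lam i ≤ lmax M) ∧ (∀ i, -lam i ≤ lmax (-M)) ∧
      (∀ q : ℕ, (M ^ q).trace = ∑ i, lam i ^ q) ∧ (Nonempty ι → ∃ i, lmax M = lam i)

/-- the top eigenvalue is integrable and (jointly) Lipschitz -/
def IntStm : Prop :=
  (∀ (ι : Type) [Fintype ι] [DecidableEq ι] (A B : Matrix ι ι ℝ),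
    |lmax A - lmax B| ≤ ∑ i, ∑ j, |A i j - B i j|) ∧
  (∀ (n r ℓ : ℕ) (lam : ℝ) (q : ℕ), MemLp (fun Z => lmax (W r ℓ lam Z)) q (G n))

/-- lower bound of the expected top eigenvalue by the constant vector -/
def LowStm : Prop :=
  ∀ (n ℓ k : ℕ) (lam : ℝ), 1 ≤ k → ℓ ≤ n → lam * dg n ℓ k ≤ E n (2 * k) ℓ lam

/-- lower bound of the expected top eigenvalue at zero signal -/
def SqStm : Prop :=
  ∀ (n ℓ k : ℕ), 1 ≤ k → k ≤ ℓ → ℓ + k ≤ n → (1 / 4 : ℝ) * √(dg n ℓ k) ≤ E n (2 * k) ℓ 0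

/-- upper bound of the expected top eigenvalue at zero signal, without logarithm -/
def NormStm : Prop :=
  ∀ k : ℕ, 1 ≤ k → ∃ C : ℝ, 0 < C ∧ ∀ ℓ : ℕ, k ≤ ℓ → ∀ᶠ n : ℕ in Filter.atTop,
    E n (2 * k) ℓ 0 ≤ C * √((dg n ℓ k) * (ℓ : ℝ))

/-! ### The matrix case `r = 2` -/

/-- the sign of a set -/
def sg {n : ℕ} (x : Fin n → Bool) (S : Finset (Fin n)) : ℝ :=
  ∏ i ∈ S, if x i then (1 : ℝ) else -1

/-- the likelihood ratio of the hypercube prior (for `r = 2`) -/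
noncomputable def LL (n : ℕ) (lam : ℝ) (Z : Finset (Fin n) → ℝ) : ℝ :=
  (∑ x : Fin n → Bool, Real.exp (lam * ∑ S ∈ Finset.univ.filter (fun S : Finset (Fin n) =>
    S.card = 2), sg x S * Z S - lam ^ 2 * (n.choose 2) / 2)) / 2 ^ n

/-- gauge symmetry and Cameron–Martin formula -/
def CMStm : Prop :=
  ∀ (n ℓ : ℕ) (lam : ℝ),
    Integrable (fun Z => LL n lam Z ^ 2) (G n) ∧
    E n 2 ℓ lam = ∫ Z, lmax (W 2 ℓ 0 Z) * LL n lam Z ∂(G n) ∧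
    ∫ Z, LL n lam Z ∂(G n) = 1

/-- second moment of the likelihood ratio -/
def ChiStm : Prop :=
  ∀ (n : ℕ) (μ : ℝ), 1 ≤ n → 0 < μ → μ < 1 →
    ∫ Z, LL n (μ * (n : ℝ) ^ (-(1 / 2 : ℝ))) Z ^ 2 ∂(G n) ≤ 1 / √(1 - μ ^ 2)

/-- one-particle density matrices have Hilbert–Schmidt norm at most `ℓ` -/
def RhoStm : Prop :=
  ∀ (n ℓ : ℕ) (u : Sb n ℓ → ℝ), ∑ I, u I ^ 2 = 1 →
    ∑ S ∈ Finset.univ.filter (fun S : Finset (Fin n) => S.card = 2),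
      (∑ I : Sb n ℓ, ∑ J : Sb n ℓ, if symmDiff I.1 J.1 = S then u I * u J else 0) ^ 2 ≤
      2 * (ℓ : ℝ) ^ 2

/-- one-sided Efron–Stein inequality for square integrable functions of independent Gaussians -/
def EsStm : Prop :=
  ∀ (ι : Type) [Fintype ι] [DecidableEq ι] (f : (ι → ℝ) → ℝ), Continuous f →
    MemLp f 2 (Measure.pi fun _ : ι => gaussianReal 0 1) →
    (∃ C : ℝ, ∀ z, |f z| ≤ C * (1 + ∑ i, |z i|)) →
    ∫ z, (f z - ∫ y, f y ∂(Measure.pi fun _ : ι => gaussianReal 0 1)) ^ 2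
      ∂(Measure.pi fun _ : ι => gaussianReal 0 1) ≤
    ∑ i, ∫ z, ∫ t, (max (f z - f (Function.update z i t)) 0) ^ 2 ∂(gaussianReal 0 1)
      ∂(Measure.pi fun _ : ι => gaussianReal 0 1)

/-- variance of the top eigenvalue for `r = 2` -/
def VarStm : Prop :=
  ∃ C : ℝ, 0 < C ∧ ∀ (n ℓ : ℕ), 1 ≤ n → 1 ≤ ℓ → ℓ ≤ n →
    ∫ Z, (lmax (W 2 ℓ 0 Z) - E n 2 ℓ 0) ^ 2 ∂(G n) ≤ C * (ℓ : ℝ) ^ 2 * √n

end Q289.KK
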