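import Mathlib

/-!
# The Kikuchi matrix of symmetric tensor PCA (definitions)

`W r ℓ lam Z` is the Kikuchi matrix at signal strength `lam` for the weights `Z`; `lmax` is the
largest eigenvalue of a real symmetric matrix (the supremum of the Rayleigh quotient), and `G` the
standard Gaussian measure on the weights.
-/

set_option autoImplicit false

namespace Q289.KK

open MeasureTheory ProbabilityTheory

/-- the `ℓ`-subsets of `[n]` -/
abbrev Sb (n ℓ : ℕ) : Type := {K : Finset (Fin n) // K.card = ℓ}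

/-- the Kikuchi matrix -/
noncomputable def W {n : ℕ} (r ℓ : ℕ) (lam : ℝ) (Z : Finset (Fin n) → ℝ) :
    Matrix (Sb n ℓ) (Sb n ℓ) ℝ :=
  Matrix.of fun I J : Sb n ℓ =>
    if (symmDiff I.1 J.1).card = r then lam + Z (symmDiff I.1 J.1) else 0

/-- the largest eigenvalue (supremum of the Rayleigh quotient) -/
noncomputable def lmax {ι : Type} [Fintype ι] (M : Matrix ι ι ℝ) : ℝ :=
  sSup {t : ℝ | ∃ v : ι → ℝ, dotProduct v v = 1 ∧ t = dotProduct v (M.mulVec v)}

/-- the Gaussian measure -/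
noncomputable abbrev G (n : ℕ) : Measure (Finset (Fin n) → ℝ) :=
  Measure.pi fun _ : Finset (Fin n) => gaussianReal 0 1

/-- the expected top eigenvalue of the Kikuchi matrix -/
noncomputable def E (n r ℓ : ℕ) (lam : ℝ) : ℝ := ∫ Z, lmax (W r ℓ lam Z) ∂(G n)

/-- the number of neighbours of an `ℓ`-set for `r = 2 k` -/
def dg (n ℓ k : ℕ) : ℕ := ℓ.choose k * (n - ℓ).choose k

/-- Hermite polynomials -/
noncomputable def he : ℕ → ℝ → ℝ
  | 0, _ => 1
  | 1, x => x
  | (u + 2), x => x * he (u + 1) x - (u + 1) * he u x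

/-- products of Hermite polynomials -/
noncomputable def HU {n : ℕ} (U : Finset (Fin n) → ℕ) (Z : Finset (Fin n) → ℝ) : ℝ :=
  ∏ S, he (U S) (Z S)

/-- the mixed moments: entries of powers of the Kikuchi matrix at zero signal against Hermite
polynomials -/
noncomputable def FF {n : ℕ} (r ℓ : ℕ) (m : ℕ) (I J : Sb n ℓ) (U : Finset (Fin n) → ℕ) : ℝ :=
  ∫ Z, (W r ℓ 0 Z ^ m) I J * HU U Z ∂(G n)

/-- the degree of a point in the multiset `U` of sets -/
def dU {n : ℕ} (U : Finset (Fin n) → ℕ) (x : Fin n) : ℕ :=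
  ∑ S ∈ Finset.univ.filter (fun S : Finset (Fin n) => x ∈ S), U S

/-- the excess potential -/
def Ph {n : ℕ} (I : Finset (Fin n)) (U : Finset (Fin n) → ℕ) : ℕ :=
  ∑ x ∈ I, (dU U x - 1) + ∑ x ∈ Iᶜ, (dU U x - 2)

/-- the neighbours of `I` -/
def nb {n ℓ : ℕ} (r : ℕ) (I : Sb n ℓ) : Finset (Sb n ℓ) :=
  Finset.univ.filter fun J => (symmDiff I.1 J.1).card = r

/-- the non-fresh neighbours of `I`: some new point already has positive degree -/
def nf {n ℓ : ℕ} (r : ℕ) (I : Sb n ℓ) (U : Finset (Fin n) → ℕ) : Finset (Sb n ℓ) :=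
  (nb r I).filter fun J => ∃ x ∈ J.1 \ I.1, 1 ≤ dU U x

end Q289.KK
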