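import Pool.Agent.Q289.KK.Stm

set_option autoImplicit false

namespace Q289.KK

open MeasureTheory ProbabilityTheory

theorem sum_add_single {α : Type} [Fintype α] [DecidableEq α] (U : α → ℕ) (S : α) :
    ∑ T, (U + Pi.single S 1 : α → ℕ) T = ∑ T, U T + 1 := by
  simp [Finset.sum_add_distrib, Finset.sum_pi_single']

theorem sum_sub_single {α : Type} [Fintype α] [DecidableEq α] (U : α → ℕ) (S : α)
    (h : 1 ≤ U S) : ∑ T, (U - Pi.single S 1 : α → ℕ) T + 1 = ∑ T, U T := by
  have e : (U - Pi.single S 1 : α → ℕ) + Pi.single S 1 = U := by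
    funext T
    by_cases hT : T = S
    · subst hT; simp; omega
    · simp [hT]
  have := sum_add_single (U - Pi.single S 1 : α → ℕ) S
  rw [e] at this
  exact this.symm

/-- if the number of open half-edges exceeds the number of steps, the moment vanishes -/
theorem FF_zero (hrec : RecStm) {n ℓ r : ℕ} (J : Sb n ℓ) : ∀ (m : ℕ) (I : Sb n ℓ)
    (U : Finset (Fin n) → ℕ), m < ∑ S, U S → FF r ℓ m I J U = 0 := by
  intro m
  induction m with
  | zero =>
    intro I U h
    rw [(hrec n ℓ r I J U).1]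
    rw [if_neg]
    rintro ⟨_, rfl⟩
    simp at h
  | succ m ih =>
    intro I U h
    rw [(hrec n ℓ r I J U).2.2 m]
    refine Finset.sum_eq_zero fun K _ => ?_
    rw [ih K _ (by rw [sum_add_single]; omega)]
    by_cases h0 : U (symmDiff I.1 K.1) = 0
    · rw [h0]; simp
    · rw [ih K _ (by have := sum_sub_single U (symmDiff I.1 K.1) (by omega); omega)]
      simp

/-- the weight -/
noncomputable def BB (e al rh l : ℝ) (m t : ℕ) (P : ℕ) : ℝ :=
  (2 + e) ^ m * (al * rh) ^ m * (rh / al) ^ t * Real.exp (m * P / l)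

theorem BB_nonneg {e al rh l : ℝ} (he : 0 ≤ e) (ha : 0 < al) (hr : 0 < rh) (m t P : ℕ) :
    0 ≤ BB e al rh l m t P := by
  unfold BB; positivity

theorem BB_mono {e al rh l : ℝ} (he : 0 ≤ e) (ha : 0 < al) (hr : 0 < rh) (hl : 0 < l)
    (m t : ℕ) {P Q : ℕ} (h : P ≤ Q) : BB e al rh l m t P ≤ BB e al rh l m t Q := by
  unfold BB
  have : (P : ℝ) ≤ Q := by exact_mod_cast h
  gcongr

theorem ind (hrec : RecStm) (hup : UpStm) (hdn : DownStm) (hret : RetStm) (hcard : CardStm)
    (hnf : NfStm) {n ℓ k M : ℕ} {e : ℝ} (hk : 1 ≤ k) (hkl : k ≤ ℓ) (hln : ℓ + k ≤ n)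
    (he : 0 ≤ e)
    (hcond : 2 * (k : ℝ) ^ 2 * M / (n - ℓ) * Real.exp (2 * k * M / ℓ) ≤ e) (J : Sb n ℓ) :
    ∀ (m : ℕ), m ≤ M → ∀ (I : Sb n ℓ) (U : Finset (Fin n) → ℕ),
      (∀ S, U S ≠ 0 → S.card = 2 * k) →
      |FF (2 * k) ℓ m I J U| ≤
        BB e (√(dg n ℓ k)) (√((ℓ : ℝ) / k)) ℓ m (∑ S, U S) (Ph I.1 U) := by
  have hkR : (0 : ℝ) < k := by exact_mod_cast hk
  have hlR : (0 : ℝ) < ℓ := by exact_mod_cast (lt_of_lt_of_le hk hkl)
  have hnl : (0 : ℝ) < (n : ℝ) - ℓ := by
    have : (ℓ : ℝ) < n := by exact_mod_cast (by omega : ℓ < n)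
    linarith
  have hdpos : 0 < dg n ℓ k := by
    unfold dg
    exact Nat.mul_pos (Nat.choose_pos hkl) (Nat.choose_pos (by omega))
  have hdR : (0 : ℝ) < dg n ℓ k := by exact_mod_cast hdpos
  set d : ℝ := (dg n ℓ k : ℝ) with hd
  set al : ℝ := √d with hal
  set rh : ℝ := √((ℓ : ℝ) / k) with hrh
  have hal0 : 0 < al := Real.sqrt_pos.2 hdR
  have hrh0 : 0 < rh := Real.sqrt_pos.2 (by positivity)
  have hal2 : al * al = d := Real.mul_self_sqrt hdR.le
  have hrh2 : rh * rh = (ℓ : ℝ) / k := Real.mul_self_sqrt (by positivity)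
  intro m
  induction m with
  | zero =>
    intro _ I U _
    rw [(hrec n ℓ (2 * k) I J U).1]
    split_ifs with h
    · obtain ⟨_, rfl⟩ := h
      simp [BB]
    · simp only [abs_zero]
      exact BB_nonneg he hal0 hrh0 _ _ _
  | succ m ih =>
    intro hmM I U hU
    by_cases ht : m + 1 < ∑ S, U S
    · rw [FF_zero hrec J _ _ _ ht, abs_zero]
      exact BB_nonneg he hal0 hrh0 _ _ _
    push Not at ht
    set t := ∑ S, U S with htdef
    set P := Ph I.1 U with hP
    have ih' := ih (by omega)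
    rw [(hrec n ℓ (2 * k) I J U).2.2 m]
    -- the new steps
    have hnew : ∀ K ∈ nb (2 * k) I, |FF (2 * k) ℓ m K J (U + Pi.single (symmDiff I.1 K.1) 1)| ≤
        BB e al rh ℓ m (t + 1) P +
          if K ∈ nf (2 * k) I U then BB e al rh ℓ m (t + 1) (P + 2 * k) else 0 := by
      intro K hK
      have hKc : (symmDiff I.1 K.1).card = 2 * k := by
        simpa [nb] using hK
      have hsup : ∀ S, (U + Pi.single (symmDiff I.1 K.1) 1 : Finset (Fin n) → ℕ) S ≠ 0 →
          S.card = 2 * k := by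
        intro S hS
        by_cases hS' : S = symmDiff I.1 K.1
        · rw [hS']; exact hKc
        · apply hU
          simpa [hS'] using hS
      have h1 := ih' K _ hsup
      rw [sum_add_single, ← htdef] at h1
      obtain ⟨hu1, hu2⟩ := hup n k I.1 K.1 U (by rw [I.2, K.2]) hKc
      split_ifs with hKn
      · refine h1.trans ((BB_mono he hal0 hrh0 hlR m (t + 1) hu1).trans ?_)
        have := BB_nonneg (l := (ℓ : ℝ)) he hal0 hrh0 m (t + 1) P
        linarith
      · have hf : ∀ x ∈ K.1 \ I.1, dU U x = 0 := by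
          intro x hx
          by_contra hne
          exact hKn (Finset.mem_filter.2 ⟨hK, x, hx, by omega⟩)
        rw [add_zero]
        exact h1.trans (BB_mono he hal0 hrh0 hlR m (t + 1) (hu2 hf))
    -- the return steps
    have hre : ∀ K ∈ nb (2 * k) I, |(U (symmDiff I.1 K.1) : ℝ) *
        FF (2 * k) ℓ m K J (U - Pi.single (symmDiff I.1 K.1) 1)| ≤
        (U (symmDiff I.1 K.1) : ℝ) * BB e al rh ℓ m (t - 1) P := by
      intro K hK
      rw [abs_mul, abs_of_nonneg (Nat.cast_nonneg _)]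
      by_cases h0 : U (symmDiff I.1 K.1) = 0
      · rw [h0]; simp
      refine mul_le_mul_of_nonneg_left ?_ (Nat.cast_nonneg _)
      have h1le : 1 ≤ U (symmDiff I.1 K.1) := by omega
      have hsup : ∀ S, (U - Pi.single (symmDiff I.1 K.1) 1 : Finset (Fin n) → ℕ) S ≠ 0 →
          S.card = 2 * k := by
        intro S hS
        apply hU
        intro hz
        apply hS
        simp [hz]
      have h1 := ih' K _ hsup
      have h2 := sum_sub_single U (symmDiff I.1 K.1) h1le
      have h3 : ∑ S, (U - Pi.single (symmDiff I.1 K.1) 1 : Finset (Fin n) → ℕ) S = t - 1 := by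
        omega
      rw [h3] at h1
      exact h1.trans (BB_mono he hal0 hrh0 hlR m (t - 1) (hdn n I.1 K.1 U h1le))
    have hsum1 : |∑ K ∈ nb (2 * k) I,
        (FF (2 * k) ℓ m K J (U + Pi.single (symmDiff I.1 K.1) 1) +
          (U (symmDiff I.1 K.1) : ℝ) * FF (2 * k) ℓ m K J (U - Pi.single (symmDiff I.1 K.1) 1))| ≤
        d * BB e al rh ℓ m (t + 1) P +
          ((nf (2 * k) I U).card : ℝ) * BB e al rh ℓ m (t + 1) (P + 2 * k) +
          (∑ K ∈ nb (2 * k) I, (U (symmDiff I.1 K.1) : ℝ)) * BB e al rh ℓ m (t - 1) P := by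
      refine (Finset.abs_sum_le_sum_abs _ _).trans ?_
      have hstep : ∀ K ∈ nb (2 * k) I,
          |FF (2 * k) ℓ m K J (U + Pi.single (symmDiff I.1 K.1) 1) +
          (U (symmDiff I.1 K.1) : ℝ) * FF (2 * k) ℓ m K J (U - Pi.single (symmDiff I.1 K.1) 1)| ≤
          (BB e al rh ℓ m (t + 1) P +
            if K ∈ nf (2 * k) I U then BB e al rh ℓ m (t + 1) (P + 2 * k) else 0) +
          (U (symmDiff I.1 K.1) : ℝ) * BB e al rh ℓ m (t - 1) P := fun K hK =>
        (abs_add_le _ _).trans (add_le_add (hnew K hK) (hre K hK))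
      refine (Finset.sum_le_sum hstep).trans (le_of_eq ?_)
      rw [Finset.sum_add_distrib, Finset.sum_add_distrib, Finset.sum_const, hcard,
        nsmul_eq_mul, ← Finset.sum_filter, Finset.sum_const, nsmul_eq_mul, Finset.sum_mul]
      congr 4
      rw [Finset.filter_mem_eq_inter]
      exact congrArg Finset.card (Finset.inter_eq_right.2
        (show nf (2 * k) I U ⊆ nb (2 * k) I from Finset.filter_subset _ _))
    refine hsum1.trans ?_
    -- the three terms
    have e1 : d * BB e al rh ℓ m (t + 1) P =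
        (2 + e) ^ m * (al * rh) ^ (m + 1) * (rh / al) ^ t * Real.exp (m * P / ℓ) := by
      unfold BB
      rw [← hal2, pow_succ (rh / al) t, pow_succ (al * rh) m]
      field_simp
    have hexp : Real.exp (m * P / ℓ) ≤ Real.exp ((m + 1 : ℕ) * P / ℓ) := by
      apply Real.exp_le_exp.2
      have : (m : ℝ) ≤ ((m + 1 : ℕ) : ℝ) := by push_cast; linarith
      gcongr
    have e2 : ((nf (2 * k) I U).card : ℝ) * BB e al rh ℓ m (t + 1) (P + 2 * k) ≤
        e * ((2 + e) ^ m * (al * rh) ^ (m + 1) * (rh / al) ^ t * Real.exp (m * P / ℓ)) := by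
      have hc : ((nf (2 * k) I U).card : ℝ) ≤ (2 * (k : ℝ) ^ 2 * M / (n - ℓ)) * d := by
        have h1 := hnf n ℓ k I U hk (by omega) hU
        have h2 : (((nf (2 * k) I U).card * (n - ℓ) : ℕ) : ℝ) ≤
            ((2 * k * (∑ S, U S) * (k * dg n ℓ k) : ℕ) : ℝ) := by exact_mod_cast h1
        rw [Nat.cast_mul, Nat.cast_sub (by omega)] at h2
        have h3 : ((∑ S, U S : ℕ) : ℝ) ≤ M := by
          have : ∑ S, U S ≤ M := by omega
          exact_mod_cast this
        rw [div_mul_eq_mul_div, le_div_iff₀ hnl]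
        refine h2.trans ?_
        rw [Nat.cast_mul, Nat.cast_mul, Nat.cast_mul (2 : ℕ), Nat.cast_mul k, ← hd]
        push_cast at h3 ⊢
        have : 2 * (k : ℝ) * (∑ S, (U S : ℝ)) * (k * d) ≤ 2 * (k : ℝ) * M * (k * d) := by
          gcongr
        refine this.trans (le_of_eq (by ring))
      have hB : BB e al rh ℓ m (t + 1) (P + 2 * k) =
          BB e al rh ℓ m (t + 1) P * Real.exp (2 * k * m / ℓ) := by
        unfold BB
        have hx : Real.exp (m * ((P + 2 * k : ℕ) : ℝ) / ℓ) =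
            Real.exp (m * P / ℓ) * Real.exp (2 * k * m / ℓ) := by
          rw [← Real.exp_add]
          congr 1
          push_cast
          ring
        rw [hx]
        ring
      rw [hB]
      have hE : Real.exp (2 * k * m / ℓ) ≤ Real.exp (2 * k * M / ℓ) := by
        apply Real.exp_le_exp.2
        have : (m : ℝ) ≤ M := by exact_mod_cast (by omega : m ≤ M)
        gcongr
      have hBn := BB_nonneg (l := (ℓ : ℝ)) he hal0 hrh0 m (t + 1) P
      have hq0 : 0 ≤ 2 * (k : ℝ) ^ 2 * M / (n - ℓ) := by positivity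
      calc ((nf (2 * k) I U).card : ℝ) * (BB e al rh ℓ m (t + 1) P * Real.exp (2 * k * m / ℓ))
          ≤ ((2 * (k : ℝ) ^ 2 * M / (n - ℓ)) * d) *
            (BB e al rh ℓ m (t + 1) P * Real.exp (2 * k * M / ℓ)) := by gcongr
        _ = (2 * (k : ℝ) ^ 2 * M / (n - ℓ) * Real.exp (2 * k * M / ℓ)) *
            (d * BB e al rh ℓ m (t + 1) P) := by ring
        _ ≤ e * (d * BB e al rh ℓ m (t + 1) P) := by gcongr
        _ = _ := by rw [e1]
    have e3 : (∑ K ∈ nb (2 * k) I, (U (symmDiff I.1 K.1) : ℝ)) * BB e al rh ℓ m (t - 1) P ≤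
        (2 + e) ^ m * (al * rh) ^ (m + 1) * (rh / al) ^ t * Real.exp ((m + 1 : ℕ) * P / ℓ) := by
      by_cases ht0 : t = 0
      · have hz : ∀ S, U S = 0 := by
          intro S
          have := Finset.sum_eq_zero_iff.1 ht0 S (Finset.mem_univ _)
          exact this
        simp only [hz, Nat.cast_zero, Finset.sum_const_zero, zero_mul]
        positivity
      have hR : (∑ K ∈ nb (2 * k) I, (U (symmDiff I.1 K.1) : ℝ)) ≤ ((ℓ : ℝ) + P) / k := by
        rw [le_div_iff₀ hkR]
        have := hret n ℓ k I U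
        have h2 : ((k * ∑ J ∈ nb (2 * k) I, U (symmDiff I.1 J.1) : ℕ) : ℝ) ≤
            ((ℓ + Ph I.1 U : ℕ) : ℝ) := by exact_mod_cast this
        push_cast at h2
        rw [mul_comm]
        exact h2
      have hR2 : ((ℓ : ℝ) + P) / k ≤ rh * rh * Real.exp (P / ℓ) := by
        rw [hrh2]
        have h1 : 1 + (P : ℝ) / ℓ ≤ Real.exp (P / ℓ) := by
          have := Real.add_one_le_exp ((P : ℝ) / ℓ); linarith
        calc ((ℓ : ℝ) + P) / k = (ℓ : ℝ) / k * (1 + (P : ℝ) / ℓ) := by field_simp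
          _ ≤ _ := by gcongr
      have hBn := BB_nonneg (l := (ℓ : ℝ)) he hal0 hrh0 m (t - 1) P
      refine (mul_le_mul_of_nonneg_right (hR.trans hR2) hBn).trans (le_of_eq ?_)
      unfold BB
      obtain ⟨s, hs⟩ : ∃ s, t = s + 1 := ⟨t - 1, by omega⟩
      rw [hs, Nat.add_sub_cancel, pow_succ (rh / al) s, pow_succ (al * rh) m]
      have hee : Real.exp ((m + 1 : ℕ) * P / ℓ) = Real.exp (P / ℓ) * Real.exp (m * P / ℓ) := by
        rw [← Real.exp_add]
        congr 1
        push_cast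
        ring
      rw [hee]
      field_simp
    have hX : 0 ≤ (2 + e) ^ m * (al * rh) ^ (m + 1) * (rh / al) ^ t := by positivity
    have e1' : d * BB e al rh ℓ m (t + 1) P ≤
        (2 + e) ^ m * (al * rh) ^ (m + 1) * (rh / al) ^ t * Real.exp ((m + 1 : ℕ) * P / ℓ) := by
      rw [e1]; gcongr
    have e2' : ((nf (2 * k) I U).card : ℝ) * BB e al rh ℓ m (t + 1) (P + 2 * k) ≤
        e * ((2 + e) ^ m * (al * rh) ^ (m + 1) * (rh / al) ^ t *
          Real.exp ((m + 1 : ℕ) * P / ℓ)) := by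
      refine e2.trans ?_
      gcongr
    have efin : BB e al rh ℓ (m + 1) t P = (2 + e) * ((2 + e) ^ m * (al * rh) ^ (m + 1) *
        (rh / al) ^ t * Real.exp ((m + 1 : ℕ) * P / ℓ)) := by
      unfold BB
      rw [pow_succ (2 + e) m]
      ring
    rw [efin]
    linarith

theorem mom (hrec : RecStm) (hup : UpStm) (hdn : DownStm) (hret : RetStm) (hcard : CardStm)
    (hnf : NfStm) : MomStm := by
  intro n ℓ k p e hk hkl hln he hcond I
  have h := ind hrec hup hdn hret hcard hnf (M := 2 * p) (e := e) hk hkl hln he (by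
    refine le_trans (le_of_eq ?_) hcond
    push_cast
    congr 1
    · ring
    · congr 1; ring) I (2 * p) le_rfl I 0 (by simp)
  refine h.trans (le_of_eq ?_)
  have hP0 : Ph I.1 (0 : Finset (Fin n) → ℕ) = 0 := by simp [Ph, dU]
  have hkR : (0 : ℝ) < k := by exact_mod_cast hk
  unfold BB
  rw [hP0]
  simp only [Pi.zero_apply, Finset.sum_const_zero, pow_zero, mul_one, Nat.cast_zero, mul_zero,
    zero_div, Real.exp_zero]
  rw [pow_mul, pow_mul, mul_pow (√_) (√_) 2, Real.sq_sqrt (Nat.cast_nonneg _),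
    Real.sq_sqrt (by positivity), ← mul_pow]
  congr 1
  ring

end Q289.KK
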