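import Pool.Agent.Q289.KK.Stm

set_option autoImplicit false

namespace Q289.KK

open MeasureTheory ProbabilityTheory Filter Topology

theorem W_symm {n : ℕ} (r ℓ : ℕ) (lam : ℝ) (Z : Finset (Fin n) → ℝ) : (W r ℓ lam Z).IsSymm := by
  ext I J
  simp only [Matrix.transpose_apply, W, Matrix.of_apply, symmDiff_comm]

theorem le_add_pow {x t : ℝ} (ht : 0 < t) {p : ℕ} (hp : 1 ≤ p) :
    x ≤ t + x ^ (2 * p) / t ^ (2 * p - 1) := by
  have hx : 0 ≤ x ^ (2 * p) := by rw [pow_mul]; positivity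
  by_cases h : x ≤ t
  · have : 0 ≤ x ^ (2 * p) / t ^ (2 * p - 1) := by positivity
    linarith
  push Not at h
  have h2 : x ≤ x ^ (2 * p) / t ^ (2 * p - 1) := by
    rw [le_div_iff₀ (by positivity)]
    have h0 : 0 < x := ht.trans h
    calc x * t ^ (2 * p - 1) ≤ x * x ^ (2 * p - 1) := by gcongr
      _ = x ^ (2 * p) := by rw [← pow_succ']; congr 1; omega
  linarith

theorem lmax_le_trace (hs : SpecStm) {ι : Type} [Fintype ι] [DecidableEq ι] (M : Matrix ι ι ℝ)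
    (hM : M.IsSymm) {t : ℝ} (ht : 0 < t) {p : ℕ} (hp : 1 ≤ p) :
    lmax M ≤ t + (M ^ (2 * p)).trace / t ^ (2 * p - 1) := by
  obtain ⟨lam, _, _, h3, h4⟩ := hs ι M hM
  rw [h3]
  have hnn : ∀ i, 0 ≤ lam i ^ (2 * p) := fun i => by rw [pow_mul]; positivity
  by_cases hne : Nonempty ι
  · obtain ⟨i, hi⟩ := h4 hne
    rw [hi]
    refine (le_add_pow ht hp).trans ?_
    gcongr
    exact Finset.single_le_sum (f := fun j => lam j ^ (2 * p)) (fun j _ => hnn j)
      (Finset.mem_univ i)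
  · have hE : lmax M = 0 := by
      have : {t : ℝ | ∃ v : ι → ℝ, dotProduct v v = 1 ∧ t = dotProduct v (M.mulVec v)} = ∅ := by
        ext t
        simp only [Set.mem_setOf_eq, Set.mem_empty_iff_false, iff_false, not_exists, not_and]
        intro v hv
        rw [not_nonempty_iff] at hne
        simp [dotProduct] at hv
      rw [lmax, this, Real.sSup_empty]
    rw [hE]
    have : 0 ≤ ∑ i, lam i ^ (2 * p) := Finset.sum_nonneg fun i _ => hnn i
    positivity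

theorem HU_zero {n : ℕ} (Z : Finset (Fin n) → ℝ) : HU (0 : Finset (Fin n) → ℕ) Z = 1 := by
  simp [HU, he]

/-- the trace bound for the expected top eigenvalue -/
theorem E_le (hmom : MomStm) (hs : SpecStm) (hi : IntStm) (hrec : RecStm) {n ℓ k p : ℕ}
    (hk : 1 ≤ k) (hkl : k ≤ ℓ) (hln : ℓ + k ≤ n) (hp : 1 ≤ p)
    (hcond : 4 * (k : ℝ) ^ 2 * p / (n - ℓ) * Real.exp (4 * k * p / ℓ) ≤ 1) {s : ℝ} (hs0 : 0 < s)
    (hN : ((n.choose ℓ : ℕ) : ℝ) ≤ s ^ (2 * p)) :
    E n (2 * k) ℓ 0 ≤ 2 * (s * (3 * √((dg n ℓ k : ℝ) * (ℓ / k)))) := by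
  have hkR : (0 : ℝ) < k := by exact_mod_cast hk
  have hlR : (0 : ℝ) < ℓ := by exact_mod_cast (lt_of_lt_of_le hk hkl)
  have hdpos : 0 < dg n ℓ k := by
    unfold dg
    exact Nat.mul_pos (Nat.choose_pos hkl) (Nat.choose_pos (by omega))
  have hdR : (0 : ℝ) < dg n ℓ k := by exact_mod_cast hdpos
  set q : ℝ := 3 * √((dg n ℓ k : ℝ) * (ℓ / k)) with hq
  have hq0 : 0 < q := by positivity
  have hq2 : q ^ (2 * p) = ((2 + 1) ^ 2 * (dg n ℓ k) * ((ℓ : ℝ) / k)) ^ p := by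
    rw [pow_mul, hq, mul_pow, Real.sq_sqrt (by positivity)]
    congr 1
    ring
  set t := s * q with ht
  have ht0 : 0 < t := by positivity
  have hint1 := (hi.2 n (2 * k) ℓ 0 1)
  have hint1' : Integrable (fun Z => lmax (W (2 * k) ℓ 0 Z)) (G n) := by
    have := hint1
    rw [Nat.cast_one] at this
    exact memLp_one_iff_integrable.1 this
  have hpow : ∀ I : Sb n ℓ, Integrable (fun Z => (W (2 * k) ℓ 0 Z ^ (2 * p)) I I) (G n) :=
    fun I => (hrec n ℓ (2 * k) I I 0).2.1 (2 * p)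
  have htr : ∀ Z : Finset (Fin n) → ℝ, (W (2 * k) ℓ 0 Z ^ (2 * p)).trace =
      ∑ I : Sb n ℓ, (W (2 * k) ℓ 0 Z ^ (2 * p)) I I := fun Z => rfl
  have hintT : Integrable (fun Z => (W (2 * k) ℓ 0 Z ^ (2 * p)).trace) (G n) := by
    simp only [htr]
    exact integrable_finset_sum _ fun I _ => hpow I
  have h1 : E n (2 * k) ℓ 0 ≤ ∫ Z, (t + (W (2 * k) ℓ 0 Z ^ (2 * p)).trace / t ^ (2 * p - 1)) ∂(G n) :=
    integral_mono hint1' ((integrable_const _).add (hintT.div_const _))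
      (fun Z => lmax_le_trace hs _ (W_symm _ _ _ _) ht0 hp)
  have h2 : ∫ Z, (t + (W (2 * k) ℓ 0 Z ^ (2 * p)).trace / t ^ (2 * p - 1)) ∂(G n) =
      t + (∑ I : Sb n ℓ, FF (2 * k) ℓ (2 * p) I I 0) / t ^ (2 * p - 1) := by
    have hc : ∫ _ : Finset (Fin n) → ℝ, t ∂(G n) = t := by simp
    have ht2 : ∫ Z, (W (2 * k) ℓ 0 Z ^ (2 * p)).trace ∂(G n) =
        ∑ I : Sb n ℓ, FF (2 * k) ℓ (2 * p) I I 0 := by
      simp only [htr]
      rw [integral_finset_sum _ fun I _ => hpow I]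
      refine Finset.sum_congr rfl fun I _ => ?_
      unfold FF
      simp only [HU_zero, mul_one]
    rw [integral_add (integrable_const _) (hintT.div_const _), integral_div, hc, ht2]
  have h3 : ∑ I : Sb n ℓ, FF (2 * k) ℓ (2 * p) I I 0 ≤ ((n.choose ℓ : ℕ) : ℝ) * q ^ (2 * p) := by
    rw [hq2]
    refine (Finset.sum_le_sum fun I _ => (le_abs_self _).trans
      (hmom n ℓ k p 1 hk hkl hln zero_le_one hcond I)).trans (le_of_eq ?_)
    rw [Finset.sum_const, nsmul_eq_mul]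
    congr 2
    rw [Finset.card_univ, Fintype.card_finset_len, Fintype.card_fin]
  have h4 : (∑ I : Sb n ℓ, FF (2 * k) ℓ (2 * p) I I 0) / t ^ (2 * p - 1) ≤ t := by
    rw [div_le_iff₀ (by positivity), ← pow_succ', show 2 * p - 1 + 1 = 2 * p by omega, ht, mul_pow]
    refine h3.trans ?_
    gcongr
  rw [h2] at h1
  linarith

theorem norm (hmom : MomStm) (hs : SpecStm) (hi : IntStm) (hrec : RecStm) : NormStm := by
  intro k hk
  have hkR : (0 : ℝ) < k := by exact_mod_cast hk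
  refine ⟨6 * Real.exp (8 * k), by positivity, fun ℓ hkl => ?_⟩
  have hlR : (0 : ℝ) < ℓ := by exact_mod_cast (lt_of_lt_of_le hk hkl)
  have hlog : Tendsto (fun n : ℕ => Real.log n) atTop atTop :=
    Real.tendsto_log_atTop.comp tendsto_natCast_atTop_atTop
  have hsmall : ∀ᶠ n : ℕ in atTop, (k * ℓ / 2 : ℝ) * Real.log n * √n ≤ n - ℓ := by
    have h1 : (fun x : ℝ => Real.log x) =o[atTop] fun x => x ^ (1 / 4 : ℝ) :=
      isLittleO_log_rpow_atTop (by norm_num)
    have h2 : ∀ᶠ x : ℝ in atTop, |Real.log x| ≤ 1 * |x ^ (1 / 4 : ℝ)| :=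
      (h1.bound zero_lt_one)
    have h3 : ∀ᶠ x : ℝ in atTop, (k * ℓ / 2 : ℝ) ≤ x ^ (1 / 4 : ℝ) / 2 :=
      ((tendsto_rpow_atTop (by norm_num : (0 : ℝ) < 1 / 4)).atTop_div_const
        (by norm_num)).eventually_ge_atTop _
    have h4 : ∀ᶠ x : ℝ in atTop, (2 * ℓ : ℝ) ≤ x := eventually_ge_atTop _
    have h5 : ∀ᶠ x : ℝ in atTop, (1 : ℝ) ≤ x := eventually_ge_atTop _
    have h6 : ∀ᶠ x : ℝ in atTop, (k * ℓ / 2 : ℝ) * Real.log x * √x ≤ x - ℓ := by
      filter_upwards [h2, h3, h4, h5] with x a b c e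
      have hx0 : 0 < x := by linarith
      have hl0 : 0 ≤ Real.log x := Real.log_nonneg e
      rw [abs_of_nonneg hl0, abs_of_nonneg (by positivity), one_mul] at a
      have hs1 : √x = x ^ (1 / 2 : ℝ) := Real.sqrt_eq_rpow x
      calc (k * ℓ / 2 : ℝ) * Real.log x * √x
          ≤ (x ^ (1 / 4 : ℝ) / 2) * x ^ (1 / 4 : ℝ) * √x := by gcongr
        _ = x / 2 := by
          rw [hs1]
          have : x ^ (1 / 4 : ℝ) * x ^ (1 / 4 : ℝ) * x ^ (1 / 2 : ℝ) = x := by
            rw [← Real.rpow_add hx0, ← Real.rpow_add hx0]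
            norm_num
          linear_combination this / 2
        _ ≤ x - ℓ := by linarith
    exact tendsto_natCast_atTop_atTop.eventually h6
  filter_upwards [hlog.eventually_ge_atTop (16 * k / ℓ : ℝ), hsmall,
    eventually_ge_atTop (ℓ + k)] with n h1 h2 h3
  have hn0 : 0 < n := by omega
  have hnR : (0 : ℝ) < n := by exact_mod_cast hn0
  have hnl : (0 : ℝ) < (n : ℝ) - ℓ := by
    have : (ℓ : ℝ) < n := by exact_mod_cast (by omega : ℓ < n)
    linarith
  have h1' : 16 * k ≤ ℓ * Real.log n := by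
    rw [div_le_iff₀ hlR] at h1
    linarith
  set p := ⌊ℓ * Real.log n / (8 * k)⌋₊ with hp
  have hX : 2 ≤ ℓ * Real.log n / (8 * k) := by
    rw [le_div_iff₀ (by positivity)]; linarith
  have hple : (p : ℝ) ≤ ℓ * Real.log n / (8 * k) := Nat.floor_le (by linarith)
  have hpge : ℓ * Real.log n / (8 * k) - 1 ≤ p := by
    have := Nat.lt_floor_add_one (ℓ * Real.log n / (8 * k))
    rw [← hp] at this
    linarith
  have hp1 : 1 ≤ p := by
    have : (1 : ℝ) ≤ p := by linarith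
    exact_mod_cast this
  have hple' : 8 * k * (p : ℝ) ≤ ℓ * Real.log n := by
    rw [le_div_iff₀ (by positivity)] at hple
    linarith
  have hcond : 4 * (k : ℝ) ^ 2 * p / (n - ℓ) * Real.exp (4 * k * p / ℓ) ≤ 1 := by
    have e1 : Real.exp (4 * k * p / ℓ) ≤ √n := by
      rw [Real.sqrt_eq_rpow, Real.rpow_def_of_pos hnR]
      apply Real.exp_le_exp.2
      rw [div_le_iff₀ hlR]
      linarith
    rw [div_mul_eq_mul_div, div_le_one hnl]
    calc 4 * (k : ℝ) ^ 2 * p * Real.exp (4 * k * p / ℓ)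
        ≤ (k * ℓ / 2 : ℝ) * Real.log n * √n := by
          have : 4 * (k : ℝ) ^ 2 * p ≤ (k * ℓ / 2 : ℝ) * Real.log n := by nlinarith
          have h0 : 0 ≤ Real.exp (4 * k * p / ℓ) := (Real.exp_pos _).le
          have h00 : 0 ≤ (k * ℓ / 2 : ℝ) * Real.log n := le_trans (by positivity) this
          exact mul_le_mul this e1 h0 h00
      _ ≤ n - ℓ := h2
  have hN : ((n.choose ℓ : ℕ) : ℝ) ≤ Real.exp (8 * k) ^ (2 * p) := by
    have e1 : ((n.choose ℓ : ℕ) : ℝ) ≤ (n : ℝ) ^ ℓ := by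
      exact_mod_cast Nat.choose_le_pow n ℓ
    have e2 : (n : ℝ) ^ ℓ = Real.exp (ℓ * Real.log n) := by
      rw [mul_comm, Real.exp_mul, Real.exp_log hnR, Real.rpow_natCast]
    have e3 : Real.exp (8 * k) ^ (2 * p) = Real.exp (16 * k * p) := by
      rw [← Real.exp_nat_mul]
      congr 1
      push_cast
      ring
    rw [e3]
    refine e1.trans ?_
    rw [e2]
    apply Real.exp_le_exp.2
    have : ℓ * Real.log n - 8 * k ≤ 8 * k * p := by
      have := mul_le_mul_of_nonneg_left hpge (by positivity : (0 : ℝ) ≤ 8 * k)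
      have e : 8 * (k : ℝ) * (ℓ * Real.log n / (8 * k) - 1) = ℓ * Real.log n - 8 * k := by
        field_simp
      linarith
    linarith
  refine (E_le hmom hs hi hrec hk hkl h3 hp1 hcond (Real.exp_pos _) hN).trans ?_
  have : √((dg n ℓ k : ℝ) * (ℓ / k)) ≤ √((dg n ℓ k : ℝ) * ℓ) := by
    apply Real.sqrt_le_sqrt
    have hk1 : (1 : ℝ) ≤ k := by exact_mod_cast hk
    have : (ℓ : ℝ) / k ≤ ℓ := div_le_self hlR.le hk1
    gcongr
  have he := Real.exp_pos (8 * (k : ℝ))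
  nlinarith [mul_le_mul_of_nonneg_left this he.le]

end Q289.KK
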