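import Pool.Agent.Q289.KK.He

set_option autoImplicit false

namespace Q289.KK

open MeasureTheory ProbabilityTheory Filter Topology

theorem all_eval {n : ℕ} (S : Finset (Fin n)) {f : ℝ → ℝ} (hf : All (gaussianReal 0 1) f) :
    All (G n) (fun Z => f (Z S)) := fun q =>
  (hf q).comp_measurePreserving
    (measurePreserving_eval (fun _ : Finset (Fin n) => gaussianReal 0 1) S)

theorem all_HU {n : ℕ} (U : Finset (Fin n) → ℕ) : All (G n) (HU U) :=
  All.prod Finset.univ fun S _ => all_eval S (all_he (U S))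

theorem all_Wpow {n : ℕ} (r ℓ : ℕ) (J : Sb n ℓ) : ∀ (m : ℕ) (I : Sb n ℓ),
    All (G n) (fun Z => (W r ℓ 0 Z ^ m) I J) := by
  intro m
  induction m with
  | zero =>
    intro I
    simp only [pow_zero]
    exact All.const _
  | succ m ih =>
    intro I
    have : (fun Z : Finset (Fin n) → ℝ => (W r ℓ 0 Z ^ (m + 1)) I J) =
        fun Z => ∑ K : Sb n ℓ, W r ℓ 0 Z I K * (W r ℓ 0 Z ^ m) K J := by
      funext Z
      rw [pow_succ', Matrix.mul_apply]
    rw [this]
    refine All.sum _ fun K _ => All.mul ?_ (ih K)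
    simp only [W, Matrix.of_apply, zero_add]
    split_ifs
    · exact all_eval _ all_id
    · exact All.const 0

theorem int_HU {n : ℕ} (U : Finset (Fin n) → ℕ) :
    ∫ Z, HU U Z ∂(G n) = if U = 0 then 1 else 0 := by
  unfold HU
  rw [integral_fintype_prod_eq_prod (fun S : Finset (Fin n) => he (U S))]
  simp only [he_int]
  split_ifs with h
  · subst h; simp
  · obtain ⟨S, hS⟩ : ∃ S, U S ≠ 0 := by
      by_contra hcon
      push Not at hcon
      exact h (funext hcon)
    exact Finset.prod_eq_zero (Finset.mem_univ S) (if_neg hS)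

theorem HU_split {n : ℕ} (V : Finset (Fin n) → ℕ) (Z : Finset (Fin n) → ℝ)
    (S : Finset (Fin n)) :
    HU V Z = he (V S) (Z S) * ∏ T ∈ Finset.univ.erase S, he (V T) (Z T) := by
  unfold HU
  rw [← Finset.mul_prod_erase _ _ (Finset.mem_univ S)]

theorem mul_HU {n : ℕ} (U : Finset (Fin n) → ℕ) (Z : Finset (Fin n) → ℝ) (S : Finset (Fin n)) :
    Z S * HU U Z = HU (U + Pi.single S 1) Z + (U S : ℝ) * HU (U - Pi.single S 1) Z := by
  obtain ⟨V, hV⟩ : ∃ V : Finset (Fin n) → ℕ, V = U + Pi.single S 1 := ⟨_, rfl⟩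
  obtain ⟨V', hV'⟩ : ∃ V' : Finset (Fin n) → ℕ, V' = U - Pi.single S 1 := ⟨_, rfl⟩
  have a1 : ∀ T, T ≠ S → V T = U T := fun T hT => by rw [hV]; simp [hT]
  have a2 : ∀ T, T ≠ S → V' T = U T := fun T hT => by rw [hV']; simp [hT]
  have e3 : V S = U S + 1 := by rw [hV]; simp
  have e4 : V' S = U S - 1 := by rw [hV']; simp
  rw [← hV, ← hV', HU_split U Z S, HU_split V Z S, HU_split V' Z S]
  have e1 : ∏ T ∈ Finset.univ.erase S, he (V T) (Z T) =
      ∏ T ∈ Finset.univ.erase S, he (U T) (Z T) :=
    Finset.prod_congr rfl fun T hT => by rw [a1 T (Finset.ne_of_mem_erase hT)]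
  have e2 : ∏ T ∈ Finset.univ.erase S, he (V' T) (Z T) =
      ∏ T ∈ Finset.univ.erase S, he (U T) (Z T) :=
    Finset.prod_congr rfl fun T hT => by rw [a2 T (Finset.ne_of_mem_erase hT)]
  rw [e1, e2, e3, e4]
  have := he_rec (U S) (Z S)
  linear_combination (∏ T ∈ Finset.univ.erase S, he (U T) (Z T)) * this

theorem recStm : RecStm := by
  intro n ℓ r I J U
  refine ⟨?_, fun m => (all_Wpow r ℓ J m I).integrable, fun m => ?_⟩
  · unfold FF
    simp only [pow_zero]
    by_cases h : I = J
    · subst h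
      simp only [Matrix.one_apply_eq, one_mul, true_and]
      exact int_HU U
    · simp only [Matrix.one_apply_ne h, zero_mul, integral_zero, h, false_and, if_false]
  · unfold FF
    have e : ∀ Z : Finset (Fin n) → ℝ, (W r ℓ 0 Z ^ (m + 1)) I J * HU U Z =
        ∑ K ∈ nb r I, ((W r ℓ 0 Z ^ m) K J * HU (U + Pi.single (symmDiff I.1 K.1) 1) Z +
          (U (symmDiff I.1 K.1) : ℝ) *
            ((W r ℓ 0 Z ^ m) K J * HU (U - Pi.single (symmDiff I.1 K.1) 1) Z)) := by
      intro Z
      rw [pow_succ', Matrix.mul_apply, Finset.sum_mul, nb, Finset.sum_filter]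
      refine Finset.sum_congr rfl fun K _ => ?_
      simp only [W, Matrix.of_apply, zero_add]
      split_ifs with h
      · have := mul_HU U Z (symmDiff I.1 K.1)
        have h2 := congrArg (fun t => ((W r ℓ 0 Z ^ m) K J) * t) this
        simp only [W, zero_add] at h2 ⊢
        linear_combination h2
      · simp
    simp only [e]
    rw [integral_finsetSum _ fun K _ => ?_]
    · refine Finset.sum_congr rfl fun K _ => ?_
      rw [integral_add, integral_const_mul]
      · exact ((all_Wpow r ℓ J m K).mul (all_HU _)).integrable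
      · exact ((all_Wpow r ℓ J m K).mul (all_HU _)).integrable.const_mul _
    · exact (((all_Wpow r ℓ J m K).mul (all_HU _)).integrable).add
        (((all_Wpow r ℓ J m K).mul (all_HU _)).integrable.const_mul _)

end Q289.KK
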