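import Pool.Agent.Q289.KK.Main
import Pool.Agent.Q289.KK.Mom
import Pool.Agent.Q289.KK.Norm
import Pool.Agent.Q289.KK.Rec
import Pool.Agent.Q166.KK.Comb
import Pool.Agent.Q166.KK.Chi
import Pool.Agent.Q166.KK.Rho
import Pool.Agent.Q225.KK.Spec
import Pool.Agent.Q225.KK.CM
import Pool.Agent.Q119.KK.Var
import Pool.Agent.Q144.KK.Int
import Pool.Agent.Q144.KK.Low
import Pool.Agent.Q144.KK.Sq

/-!
# Assembly of the project KK
-/

set_option autoImplicit false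

namespace Q289.KK

open MeasureTheory ProbabilityTheory Filter Topology

theorem intStm : IntStm := Pool.Agent.Q144.KK.int

theorem momStm : MomStm :=
  mom recStm Pool.Agent.Q166.KK.up Pool.Agent.Q166.KK.down Pool.Agent.Q166.KK.ret
    Pool.Agent.Q166.KK.card Pool.Agent.Q166.KK.nf_card

theorem normStm : NormStm := norm momStm Pool.Agent.Q225.KK.spec intStm recStm

theorem lowStm : LowStm := Pool.Agent.Q144.KK.low intStm Pool.Agent.Q166.KK.card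

theorem sqStm : SqStm :=
  Pool.Agent.Q144.KK.sq Pool.Agent.Q225.KK.spec intStm Pool.Agent.Q166.KK.card

theorem varStm : VarStm := Pool.Agent.Q119.KK.var intStm

theorem two_final (ℓ : ℕ) (hl : 1 ≤ ℓ) (μ : ℝ) (h0 : 0 ≤ μ) (h1 : μ < 1) (ε : ℝ) (hε : 0 < ε) :
    ∀ᶠ n : ℕ in atTop, E n 2 ℓ (μ * (n : ℝ) ^ (-((2 : ℕ) : ℝ) / 4)) / E n 2 ℓ 0 ≤ 1 + ε :=
  two Pool.Agent.Q225.KK.cmstm Pool.Agent.Q166.KK.chi varStm sqStm intStm ℓ hl μ h0 h1 ε hε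

theorem main_final (r : ℕ) (hr : 2 ≤ r) (hev : Even r) :
    (∃ C : ℝ, 0 < C ∧ ∀ ℓ : ℕ, r / 2 ≤ ℓ →
      thr r ℓ ≤ ENNReal.ofReal (C * (ℓ : ℝ) ^ (-((r : ℝ) - 2) / 4))) ∧
    (Tendsto (fun ℓ : ℕ => thr r ℓ) atTop (𝓝 0) ↔ 4 ≤ r) ∧
    (r = 2 → ∀ ℓ : ℕ, 1 ≤ ℓ → 1 ≤ thr r ℓ) :=
  main normStm lowStm Pool.Agent.Q225.KK.cmstm Pool.Agent.Q166.KK.chi varStm sqStm intStm r hr hev

end Q289.KK
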