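import Pool.Agent.Q289.KK.Stm

set_option autoImplicit false

namespace Q289.KK

open MeasureTheory ProbabilityTheory Filter Topology

/-- `choose m k ≥ (m / k) ^ k` -/
theorem choose_ge {m k : ℕ} (hk : 1 ≤ k) (hm : k ≤ m) :
    ((m : ℝ) / k) ^ k ≤ ((m.choose k : ℕ) : ℝ) := by
  induction k, hk using Nat.le_induction generalizing m with
  | base => simp
  | succ k hk ih =>
    obtain ⟨m, rfl⟩ : ∃ m', m = m' + 1 := ⟨m - 1, by omega⟩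
    have h1 := Nat.add_one_mul_choose_eq m k
    have h2 : ((m + 1 : ℕ) : ℝ) * ((m.choose k : ℕ) : ℝ) =
        (((m + 1).choose (k + 1) : ℕ) : ℝ) * ((k + 1 : ℕ) : ℝ) := by exact_mod_cast h1
    have hkm : k ≤ m := by omega
    have hk0 : (0 : ℝ) < k := by exact_mod_cast hk
    have h3 := ih hkm
    have hk1 : (0 : ℝ) < ((k + 1 : ℕ) : ℝ) := by positivity
    have h4 : ((m + 1 : ℕ) : ℝ) / ((k + 1 : ℕ) : ℝ) ≤ (m : ℝ) / k := by
      rw [div_le_div_iff₀ hk1 hk0]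
      push_cast
      have : (k : ℝ) ≤ m := by exact_mod_cast hkm
      nlinarith
    have h5 : (((m + 1).choose (k + 1) : ℕ) : ℝ) =
        ((m + 1 : ℕ) : ℝ) / ((k + 1 : ℕ) : ℝ) * ((m.choose k : ℕ) : ℝ) := by
      field_simp
      linarith
    rw [h5, pow_succ, mul_comm]
    refine mul_le_mul_of_nonneg_left ?_ (by positivity)
    refine le_trans ?_ h3
    gcongr

/-- for `r = 2 k`, the signal is stronger than the noise by `ℓ ^ ((k - 1) / 2)` -/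
theorem big (hnorm : NormStm) (hlow : LowStm) (hsq : SqStm) (k : ℕ) (hk : 1 ≤ k) :
    ∃ c : ℝ, 0 < c ∧ ∀ ℓ : ℕ, k ≤ ℓ → ∀ μ : ℝ, 0 ≤ μ → ∀ᶠ n : ℕ in atTop,
      c * μ * (ℓ : ℝ) ^ (((k : ℝ) - 1) / 2) ≤
        E n (2 * k) ℓ (μ * (n : ℝ) ^ (-((2 * k : ℕ) : ℝ) / 4)) / E n (2 * k) ℓ 0 := by
  obtain ⟨C, hC, h⟩ := hnorm k hk
  have hkR : (0 : ℝ) < k := by exact_mod_cast hk
  refine ⟨1 / (C * (2 * k * k : ℝ) ^ ((k : ℝ) / 2)), by positivity, fun ℓ hkl μ hμ => ?_⟩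
  have hlR : (0 : ℝ) < ℓ := by exact_mod_cast (lt_of_lt_of_le hk hkl)
  filter_upwards [h ℓ hkl, eventually_ge_atTop (2 * ℓ + 2 * k)] with n h1 h2
  have hnR : (0 : ℝ) < n := by exact_mod_cast (by omega : 0 < n)
  have hdpos : 0 < dg n ℓ k := by
    unfold dg
    exact Nat.mul_pos (Nat.choose_pos hkl) (Nat.choose_pos (by omega))
  have hdR : (0 : ℝ) < dg n ℓ k := by exact_mod_cast hdpos
  have hE0 : 0 < E n (2 * k) ℓ 0 := lt_of_lt_of_le (by positivity) (hsq n ℓ k hk hkl (by omega))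
  rw [le_div_iff₀ hE0]
  have hL := hlow n ℓ k (μ * (n : ℝ) ^ (-((2 * k : ℕ) : ℝ) / 4)) hk (by omega)
  refine le_trans ?_ hL
  -- the degree
  have hdg : ((ℓ : ℝ) * n / (2 * k * k)) ^ k ≤ dg n ℓ k := by
    unfold dg
    push_cast
    have e1 := choose_ge hk hkl
    have e2 := choose_ge (m := n - ℓ) hk (by omega)
    have e3 : (n : ℝ) / (2 * k) ≤ ((n - ℓ : ℕ) : ℝ) / k := by
      rw [Nat.cast_sub (by omega), div_le_div_iff₀ (by positivity) hkR]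
      have : (2 : ℝ) * ℓ ≤ n := by exact_mod_cast (by omega : 2 * ℓ ≤ n)
      nlinarith
    calc ((ℓ : ℝ) * n / (2 * k * k)) ^ k = ((ℓ : ℝ) / k) ^ k * ((n : ℝ) / (2 * k)) ^ k := by
          rw [← mul_pow]; congr 1; field_simp
      _ ≤ ((ℓ : ℝ) / k) ^ k * (((n - ℓ : ℕ) : ℝ) / k) ^ k := by gcongr
      _ ≤ _ := by gcongr
  have hsd : ((ℓ : ℝ) * n / (2 * k * k)) ^ ((k : ℝ) / 2) ≤ √(dg n ℓ k) := by
    rw [Real.sqrt_eq_rpow]
    calc ((ℓ : ℝ) * n / (2 * k * k)) ^ ((k : ℝ) / 2)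
        = (((ℓ : ℝ) * n / (2 * k * k)) ^ k) ^ (1 / 2 : ℝ) := by
          rw [← Real.rpow_natCast, ← Real.rpow_mul (by positivity)]
          congr 1; ring
      _ ≤ _ := Real.rpow_le_rpow (by positivity) hdg (by norm_num)
  have hE1 : E n (2 * k) ℓ 0 ≤ C * (√(dg n ℓ k) * √ℓ) := by
    rw [← Real.sqrt_mul (Nat.cast_nonneg _)]; exact h1
  set D : ℝ := √(dg n ℓ k) with hD
  have hD0 : 0 < D := Real.sqrt_pos.2 hdR
  have hDD : D * D = dg n ℓ k := Real.mul_self_sqrt hdR.le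
  rw [← hDD]
  -- powers of n and ℓ
  have hn1 : (n : ℝ) ^ (-((2 * k : ℕ) : ℝ) / 4) = ((n : ℝ) ^ ((k : ℝ) / 2))⁻¹ := by
    rw [← Real.rpow_neg hnR.le]
    congr 1
    push_cast
    ring
  have hsplit : ((ℓ : ℝ) * n / (2 * k * k)) ^ ((k : ℝ) / 2) =
      (ℓ : ℝ) ^ ((k : ℝ) / 2) * (n : ℝ) ^ ((k : ℝ) / 2) / (2 * k * k : ℝ) ^ ((k : ℝ) / 2) := by
    rw [Real.div_rpow (by positivity) (by positivity), Real.mul_rpow hlR.le hnR.le]
  have hl1 : (ℓ : ℝ) ^ (((k : ℝ) - 1) / 2) * √ℓ = (ℓ : ℝ) ^ ((k : ℝ) / 2) := by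
    rw [Real.sqrt_eq_rpow, ← Real.rpow_add hlR]
    congr 1
    ring
  rw [hn1]
  rw [hsplit] at hsd
  set X : ℝ := (n : ℝ) ^ ((k : ℝ) / 2) with hX
  have hX0 : 0 < X := Real.rpow_pos_of_pos hnR _
  set Y : ℝ := (2 * k * k : ℝ) ^ ((k : ℝ) / 2) with hY
  have hY0 : 0 < Y := Real.rpow_pos_of_pos (by positivity) _
  set V : ℝ := (ℓ : ℝ) ^ (((k : ℝ) - 1) / 2) with hV
  have hV0 : 0 < V := Real.rpow_pos_of_pos hlR _
  have hsl : 0 < √(ℓ : ℝ) := Real.sqrt_pos.2 hlR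
  rw [← hl1] at hsd
  calc 1 / (C * Y) * μ * V * E n (2 * k) ℓ 0 ≤ 1 / (C * Y) * μ * V * (C * (D * √ℓ)) := by
        gcongr
    _ = μ * X⁻¹ * (V * √ℓ * X / Y * D) := by field_simp
    _ ≤ μ * X⁻¹ * (D * D) := by gcongr

/-- the threshold of Q1 for `r ≥ 4`, in the form of the frozen statement -/
theorem four (hnorm : NormStm) (hlow : LowStm) (hsq : SqStm) (k : ℕ) (hk : 2 ≤ k) (δ : ℝ)
    (hδ : 0 < δ) : ∀ᶠ ℓ : ℕ in atTop, ∀ μ : ℝ, δ < μ → ∃ ε : ℝ, 0 < ε ∧ ∀ᶠ n : ℕ in atTop,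
      1 + ε ≤ E n (2 * k) ℓ (μ * (n : ℝ) ^ (-((2 * k : ℕ) : ℝ) / 4)) / E n (2 * k) ℓ 0 := by
  obtain ⟨c, hc, h⟩ := big hnorm hlow hsq k (by omega)
  have h1 : Tendsto (fun ℓ : ℕ => c * δ * (ℓ : ℝ) ^ (((k : ℝ) - 1) / 2)) atTop atTop := by
    have hk' : 0 < ((k : ℝ) - 1) / 2 := by
      have : (2 : ℝ) ≤ k := by exact_mod_cast hk
      linarith
    exact ((tendsto_rpow_atTop hk').comp tendsto_natCast_atTop_atTop).const_mul_atTop (by positivity)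
  filter_upwards [h1.eventually_ge_atTop 2, eventually_ge_atTop k] with ℓ hl hkl μ hμ
  refine ⟨1, one_pos, ?_⟩
  filter_upwards [h ℓ hkl μ (hδ.trans hμ).le] with n hn
  refine le_trans ?_ hn
  have : (0 : ℝ) ≤ (ℓ : ℝ) ^ (((k : ℝ) - 1) / 2) := by positivity
  calc (1 : ℝ) + 1 = 2 := by norm_num
    _ ≤ c * δ * (ℓ : ℝ) ^ (((k : ℝ) - 1) / 2) := hl
    _ ≤ _ := by gcongr

end Q289.KK
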