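import Pool.Agent.Q289.KK.Stm

set_option autoImplicit false

namespace Q289.KK

open MeasureTheory ProbabilityTheory Filter Topology

/-- all finite moments -/
def All {α : Type} [MeasurableSpace α] (μ : Measure α) (f : α → ℝ) : Prop :=
  ∀ q : ℕ, MemLp f q μ

section all
variable {α : Type} [MeasurableSpace α] {μ : Measure α}

theorem All.mul {f g : α → ℝ} (hf : All μ f) (hg : All μ g) : All μ (fun x => f x * g x) := by
  intro q
  rcases Nat.eq_zero_or_pos q with rfl | hq
  · rw [Nat.cast_zero, memLp_zero_iff_aestronglyMeasurable]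
    exact (hf 0).1.mul (hg 0).1
  have hT : ENNReal.HolderTriple ((2 * q : ℕ) : ENNReal) ((2 * q : ℕ) : ENNReal) (q : ENNReal) := by
    constructor
    have h2 : ((2 * q : ℕ) : ENNReal) = 2 * q := by push_cast; rfl
    rw [h2, ENNReal.mul_inv (Or.inl (by norm_num)) (Or.inl (by norm_num)), ← add_mul,
      ENNReal.inv_two_add_inv_two, one_mul]
  exact MemLp.mul (hg (2 * q)) (hf (2 * q)) (hpqr := hT)

theorem All.add {f g : α → ℝ} (hf : All μ f) (hg : All μ g) : All μ (fun x => f x + g x) :=
  fun q => (hf q).add (hg q)

theorem All.sub {f g : α → ℝ} (hf : All μ f) (hg : All μ g) : All μ (fun x => f x - g x) :=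
  fun q => (hf q).sub (hg q)

theorem All.const_mul {f : α → ℝ} (hf : All μ f) (c : ℝ) : All μ (fun x => c * f x) :=
  fun q => (hf q).const_mul c

theorem All.const [IsProbabilityMeasure μ] (c : ℝ) : All μ (fun _ : α => c) :=
  fun _ => memLp_const c

theorem All.sum {ι : Type} (s : Finset ι) {f : ι → α → ℝ} (hf : ∀ i ∈ s, All μ (f i)) :
    All μ (fun x => ∑ i ∈ s, f i x) := fun q => memLp_finset_sum s fun i hi => hf i hi q

theorem All.prod [IsProbabilityMeasure μ] {ι : Type} (s : Finset ι) {f : ι → α → ℝ}
    (hf : ∀ i ∈ s, All μ (f i)) : All μ (fun x => ∏ i ∈ s, f i x) := by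
  classical
  induction s using Finset.induction_on with
  | empty => simpa using All.const 1
  | insert i s hi ih =>
    have : (fun x => ∏ j ∈ insert i s, f j x) = fun x => f i x * ∏ j ∈ s, f j x := by
      funext x
      rw [Finset.prod_insert hi]
    rw [this]
    exact (hf i (Finset.mem_insert_self _ _)).mul
      (ih fun j hj => hf j (Finset.mem_insert_of_mem hj))

theorem All.integrable {f : α → ℝ} (hf : All μ f) : Integrable f μ := by
  have := hf 1
  rw [Nat.cast_one] at this
  exact memLp_one_iff_integrable.1 this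

end all

theorem all_id : All (gaussianReal 0 1) (fun x : ℝ => x) := fun q => by
  have := memLp_id_gaussianReal (μ := 0) (v := 1) (q : NNReal)
  exact_mod_cast this

theorem all_he : ∀ u : ℕ, All (gaussianReal 0 1) (he u)
  | 0 => by
    have : he 0 = fun _ => (1 : ℝ) := by funext x; simp [he]
    rw [this]; exact All.const 1
  | 1 => by
    have : he 1 = fun x => x := by funext x; simp [he]
    rw [this]; exact all_id
  | (u + 2) => by
    have : he (u + 2) = fun x => x * he (u + 1) x - (u + 1) * he u x := by
      funext x; simp [he]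
    rw [this]
    exact (all_id.mul (all_he (u + 1))).sub ((all_he u).const_mul _)

theorem he_rec (u : ℕ) (x : ℝ) : x * he u x = he (u + 1) x + u * he (u - 1) x := by
  match u with
  | 0 => simp [he]
  | (u + 1) =>
    simp only [he, Nat.add_sub_cancel]
    push_cast
    ring

theorem he_deriv : ∀ (u : ℕ) (x : ℝ), HasDerivAt (he (u + 1)) ((u + 1) * he u x) x
  | 0, x => by
    have : he (0 + 1) = fun x => x := by funext x; simp [he]
    rw [this]
    exact (hasDerivAt_id' x).congr_deriv (by simp [he])
  | 1, x => by
    have : he (1 + 1) = fun x => x * x - 1 := by funext x; simp [he]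
    rw [this]
    have h := ((hasDerivAt_id x).mul (hasDerivAt_id x)).sub_const 1
    simp only [id] at h
    refine h.congr_deriv ?_
    simp [he]
    ring
  | (u + 2), x => by
    have e : he (u + 2 + 1) = fun x => x * he (u + 2) x - ((u + 1 : ℕ) + 1) * he (u + 1) x := by
      funext x
      show he (u + 1 + 2) x = _
      simp [he]
    rw [e]
    have h := ((hasDerivAt_id x).mul (he_deriv (u + 1) x)).sub
      ((he_deriv u x).const_mul (((u + 1 : ℕ) : ℝ) + 1))
    simp only [id] at h
    refine h.congr_deriv ?_
    have r := he_rec (u + 1) x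
    have r2 : he (u + 2) x = x * he (u + 1) x - (u + 1) * he u x := by simp [he]
    push_cast at *
    have r3 : he (u + 1 + 1) x = he (u + 2) x := rfl
    rw [r3, r2]
    ring

theorem stein_poly (f f' : ℝ → ℝ) (hd : ∀ t, HasDerivAt f (f' t) t)
    (hf : All (gaussianReal 0 1) f) (hf' : All (gaussianReal 0 1) f') :
    ∫ t, t * f t ∂(gaussianReal 0 1) = ∫ t, f' t ∂(gaussianReal 0 1) := by
  have pdf_deriv : ∀ t : ℝ, HasDerivAt (gaussianPDFReal 0 1) (-(t * gaussianPDFReal 0 1 t)) t := by
    intro t
    have h : gaussianPDFReal 0 1 = fun x : ℝ =>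
        (Real.sqrt (2 * Real.pi * ((1 : NNReal) : ℝ)))⁻¹ *
          Real.exp (-(x - 0) ^ 2 / (2 * ((1 : NNReal) : ℝ))) := by
      rw [gaussianPDFReal_def]
    rw [h]
    have h1 : HasDerivAt (fun x : ℝ => -(x - 0) ^ 2 / (2 * ((1 : NNReal) : ℝ))) (-t) t := by
      have := (((hasDerivAt_id t).sub_const (0:ℝ)).pow 2).neg.div_const (2 * ((1 : NNReal) : ℝ))
      refine this.congr_deriv ?_
      simp only [id, sub_zero, NNReal.coe_one, mul_one]
      norm_num
      ring
    have h2 := (h1.exp).const_mul (Real.sqrt (2 * Real.pi * ((1 : NNReal) : ℝ)))⁻¹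
    refine h2.congr_deriv ?_
    ring
  have igi : ∀ (f : ℝ → ℝ), Integrable f (gaussianReal 0 1) →
      Integrable fun t => f t * gaussianPDFReal 0 1 t := by
    intro f hf
    rw [gaussianReal_of_var_ne_zero 0 (by norm_num : (1 : NNReal) ≠ 0),
      integrable_withDensity_iff_integrable_smul' (measurable_gaussianPDF 0 1)
        (Eventually.of_forall fun _ => gaussianPDF_lt_top)] at hf
    refine hf.congr (Eventually.of_forall fun t => ?_)
    simp only [smul_eq_mul, toReal_gaussianPDF]
    ring
  have j1 := igi _ (all_id.mul hf).integrable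
  have j2 := igi _ hf'.integrable
  have j3 := igi _ hf.integrable
  have key := integral_mul_deriv_eq_deriv_mul_of_integrable (u := f) (u' := f')
    (v := gaussianPDFReal 0 1) (v' := fun t => -(t * gaussianPDFReal 0 1 t))
    (fun x _ => hd x) (fun x _ => pdf_deriv x)
    (j1.neg.congr (Eventually.of_forall fun t => by simp only [Pi.neg_apply, Pi.mul_apply]; ring))
    (j2.congr (Eventually.of_forall fun t => by simp only [Pi.mul_apply]))
    (j3.congr (Eventually.of_forall fun t => by simp only [Pi.mul_apply]))
  rw [integral_gaussianReal_eq_integral_smul (by norm_num),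
    integral_gaussianReal_eq_integral_smul (by norm_num)]
  have e1 : ∫ x, gaussianPDFReal 0 1 x • (x * f x) =
      -∫ x, f x * -(x * gaussianPDFReal 0 1 x) := by
    rw [← integral_neg]
    congr 1; ext x; simp only [smul_eq_mul]; ring
  have e2 : ∫ x, gaussianPDFReal 0 1 x • f' x = ∫ x, f' x * gaussianPDFReal 0 1 x := by
    congr 1; ext x; simp only [smul_eq_mul]; ring
  rw [e1, e2, key, neg_neg]

theorem he_int (u : ℕ) : ∫ x, he u x ∂(gaussianReal 0 1) = if u = 0 then 1 else 0 := by
  match u with
  | 0 => simp [he]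
  | 1 =>
    have : he 1 = fun x => x := by funext x; simp [he]
    rw [this]
    simp
  | (u + 2) =>
    rw [if_neg (by omega)]
    have e : ∀ x, he (u + 2) x = x * he (u + 1) x - (u + 1) * he u x := fun x => by simp [he]
    simp only [e]
    rw [integral_sub (all_id.mul (all_he (u + 1))).integrable ((all_he u).const_mul _).integrable,
      stein_poly (he (u + 1)) (fun x => (u + 1) * he u x) (he_deriv u) (all_he _)
        ((all_he u).const_mul _), sub_self]

theorem heStm : HeStm := ⟨he_rec, all_he, he_int⟩

end Q289.KK
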