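import Pool.Agent.Q289.KK.Stm

set_option autoImplicit false

namespace Q289.KK

open MeasureTheory ProbabilityTheory Filter Topology

/-- Cauchy–Schwarz for the likelihood ratio -/
theorem E_two_le (hcm : CMStm) (hi : IntStm) (n ℓ : ℕ) (lam s : ℝ) (hs : 0 < s) :
    E n 2 ℓ lam ≤ E n 2 ℓ 0 +
      (s * ∫ Z, (lmax (W 2 ℓ 0 Z) - E n 2 ℓ 0) ^ 2 ∂(G n) + s⁻¹ * ∫ Z, LL n lam Z ^ 2 ∂(G n)) := by
  obtain ⟨c1, c2, c3⟩ := hcm n ℓ lam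
  have hf2 : MemLp (fun Z => lmax (W 2 ℓ 0 Z)) 2 (G n) := by
    have := hi.2 n 2 ℓ 0 2
    exact_mod_cast this
  have hf1 : MemLp (fun Z => lmax (W 2 ℓ 0 Z)) 1 (G n) := by
    have := hi.2 n 2 ℓ 0 1
    exact_mod_cast this
  have hfi : Integrable (fun Z => lmax (W 2 ℓ 0 Z)) (G n) := memLp_one_iff_integrable.1 hf1
  have hg2 : MemLp (fun Z => lmax (W 2 ℓ 0 Z) - E n 2 ℓ 0) 2 (G n) := hf2.sub (memLp_const _)
  have hgi : Integrable (fun Z => (lmax (W 2 ℓ 0 Z) - E n 2 ℓ 0) ^ 2) (G n) := hg2.integrable_sq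
  have hLm : Measurable (LL n lam) := by
    unfold LL
    fun_prop
  have hL2 : MemLp (LL n lam) 2 (G n) := (memLp_two_iff_integrable_sq hLm.aestronglyMeasurable).2 c1
  have hLi : Integrable (LL n lam) (G n) := hL2.integrable (by norm_num)
  have hprod : Integrable (fun Z => (lmax (W 2 ℓ 0 Z) - E n 2 ℓ 0) * LL n lam Z) (G n) :=
    hg2.integrable_mul hL2
  have e1 : E n 2 ℓ lam = E n 2 ℓ 0 + ∫ Z, (lmax (W 2 ℓ 0 Z) - E n 2 ℓ 0) * LL n lam Z ∂(G n) := by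
    have h : ∫ Z, (lmax (W 2 ℓ 0 Z) - E n 2 ℓ 0) * LL n lam Z ∂(G n) =
        ∫ Z, lmax (W 2 ℓ 0 Z) * LL n lam Z ∂(G n) - ∫ Z, E n 2 ℓ 0 * LL n lam Z ∂(G n) := by
      rw [← integral_sub]
      · congr 1
        ext Z
        ring
      · exact hf2.integrable_mul hL2
      · exact hLi.const_mul _
    rw [h, integral_const_mul, c3, ← c2]
    ring
  rw [e1]
  gcongr
  have e2 : s * ∫ Z, (lmax (W 2 ℓ 0 Z) - E n 2 ℓ 0) ^ 2 ∂(G n) + s⁻¹ * ∫ Z, LL n lam Z ^ 2 ∂(G n) =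
      ∫ Z, (s * (lmax (W 2 ℓ 0 Z) - E n 2 ℓ 0) ^ 2 + s⁻¹ * LL n lam Z ^ 2) ∂(G n) := by
    rw [integral_add (hgi.const_mul _) (c1.const_mul _), integral_const_mul, integral_const_mul]
  rw [e2]
  refine integral_mono hprod ((hgi.const_mul _).add (c1.const_mul _)) fun Z => ?_
  show (lmax (W 2 ℓ 0 Z) - E n 2 ℓ 0) * LL n lam Z ≤
    s * (lmax (W 2 ℓ 0 Z) - E n 2 ℓ 0) ^ 2 + s⁻¹ * LL n lam Z ^ 2
  set a := lmax (W 2 ℓ 0 Z) - E n 2 ℓ 0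
  set b := LL n lam Z
  have h1 : s * a ^ 2 + s⁻¹ * b ^ 2 - a * b = s⁻¹ * ((s * a) ^ 2 - (s * a) * b + b ^ 2) := by
    field_simp
    ring
  have h2 : 0 ≤ (s * a) ^ 2 - (s * a) * b + b ^ 2 := by
    nlinarith [sq_nonneg (s * a - b), sq_nonneg (s * a + b)]
  have h3 : 0 ≤ s⁻¹ * ((s * a) ^ 2 - (s * a) * b + b ^ 2) := by positivity
  linarith

/-- for `r = 2` there is no gain below the signal `μ = 1`, whatever `ℓ` -/
theorem two (hcm : CMStm) (hchi : ChiStm) (hvar : VarStm) (hsq : SqStm) (hi : IntStm) (ℓ : ℕ)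
    (hl : 1 ≤ ℓ) (μ : ℝ) (h0 : 0 ≤ μ) (h1 : μ < 1) (ε : ℝ) (hε : 0 < ε) : ∀ᶠ n : ℕ in atTop,
      E n 2 ℓ (μ * (n : ℝ) ^ (-((2 : ℕ) : ℝ) / 4)) / E n 2 ℓ 0 ≤ 1 + ε := by
  rcases h0.eq_or_lt with rfl | h0'
  · refine Eventually.of_forall fun n => ?_
    rw [zero_mul]
    exact (div_self_le_one _).trans (by linarith)
  obtain ⟨C, hC, hv⟩ := hvar
  set K : ℝ := 1 / √(1 - μ ^ 2) with hK
  have hK0 : 0 ≤ K := by positivity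
  have hlR : (0 : ℝ) < ℓ := by exact_mod_cast hl
  have hlim : ∀ᶠ x : ℝ in atTop, (C * (ℓ : ℝ) ^ 2 + K) * 8 / ε ≤ x ^ (1 / 4 : ℝ) :=
    (tendsto_rpow_atTop (by norm_num : (0 : ℝ) < 1 / 4)).eventually_ge_atTop _
  filter_upwards [tendsto_natCast_atTop_atTop.eventually hlim,
    eventually_ge_atTop (2 * ℓ + 2)] with n hn1 hn2
  have hnR : (0 : ℝ) < n := by exact_mod_cast (by omega : 0 < n)
  have hdgR : ((dg n ℓ 1 : ℕ) : ℝ) = ℓ * ((n : ℝ) - ℓ) := by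
    unfold dg
    rw [Nat.choose_one_right, Nat.choose_one_right, Nat.cast_mul, Nat.cast_sub (by omega)]
  have hE := hsq n ℓ 1 le_rfl hl (by omega)
  rw [mul_one] at hE
  have hd : (n : ℝ) / 2 ≤ (dg n ℓ 1 : ℕ) := by
    rw [hdgR]
    have e1 : (2 : ℝ) * ℓ ≤ n := by exact_mod_cast (by omega : 2 * ℓ ≤ n)
    have e2 : (1 : ℝ) ≤ ℓ := by exact_mod_cast hl
    nlinarith
  have hE2 : √n / 8 ≤ E n 2 ℓ 0 := by
    have : √n / 2 ≤ √(dg n ℓ 1 : ℕ) := by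
      apply Real.le_sqrt_of_sq_le
      rw [div_pow, Real.sq_sqrt hnR.le]
      linarith
    linarith
  have hE0 : 0 < E n 2 ℓ 0 := lt_of_lt_of_le (by positivity) hE2
  rw [div_le_iff₀ hE0]
  have hlam : (n : ℝ) ^ (-((2 : ℕ) : ℝ) / 4) = (n : ℝ) ^ (-(1 / 2 : ℝ)) := by
    congr 1
    norm_num
  rw [hlam]
  set lam : ℝ := μ * (n : ℝ) ^ (-(1 / 2 : ℝ)) with hlamd
  set x : ℝ := (n : ℝ) ^ (1 / 4 : ℝ) with hx
  have hx0 : 0 < x := Real.rpow_pos_of_pos hnR _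
  have hxx : x * x = √n := by
    rw [hx, Real.sqrt_eq_rpow, ← Real.rpow_add hnR]
    norm_num
  have key := E_two_le hcm hi n ℓ lam x⁻¹ (by positivity)
  rw [inv_inv] at key
  have hv' := hv n ℓ (by omega) hl (by omega)
  rw [← hxx] at hv'
  have hc' := hchi n μ (by omega) h0' h1
  rw [← hlamd, ← hK] at hc'
  have hA : x⁻¹ * ∫ Z, (lmax (W 2 ℓ 0 Z) - E n 2 ℓ 0) ^ 2 ∂(G n) ≤ C * (ℓ : ℝ) ^ 2 * x := by
    calc _ ≤ x⁻¹ * (C * (ℓ : ℝ) ^ 2 * (x * x)) := by gcongr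
      _ = _ := by field_simp
  have hB : x * ∫ Z, LL n lam Z ^ 2 ∂(G n) ≤ x * K := by gcongr
  have hfin : (C * (ℓ : ℝ) ^ 2 + K) * x ≤ ε * E n 2 ℓ 0 := by
    have e1 : (C * (ℓ : ℝ) ^ 2 + K) * 8 ≤ ε * x := by
      rw [div_le_iff₀ hε] at hn1
      linarith
    have e2 : x * x / 8 ≤ E n 2 ℓ 0 := by rw [hxx]; exact hE2
    calc (C * (ℓ : ℝ) ^ 2 + K) * x = ((C * (ℓ : ℝ) ^ 2 + K) * 8) * x / 8 := by ring
      _ ≤ (ε * x) * x / 8 := by gcongr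
      _ = ε * (x * x / 8) := by ring
      _ ≤ _ := by gcongr
  have : (1 + ε) * E n 2 ℓ 0 = E n 2 ℓ 0 + ε * E n 2 ℓ 0 := by ring
  rw [this]
  linarith

end Q289.KK
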