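import Pool.Agent.Q289.KK.Four
import Pool.Agent.Q289.KK.Two

/-!
# The rescaled spectral threshold of the Kikuchi matrix
-/

set_option autoImplicit false

namespace Q289.KK

open MeasureTheory ProbabilityTheory Filter Topology

/-- the lower limit of the ratio of the expected top eigenvalues at signal `μ n ^ (-r/4)` and `0` -/
noncomputable def rho (r ℓ : ℕ) (μ : ℝ) : EReal :=
  liminf (fun n : ℕ => ((E n r ℓ (μ * (n : ℝ) ^ (-(r : ℝ) / 4)) / E n r ℓ 0 : ℝ) : EReal)) atTop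

/-- the rescaled spectral threshold `inf {μ ≥ 0 : rho μ > 1}`, in `[0, ∞]` -/
noncomputable def thr (r ℓ : ℕ) : ENNReal :=
  sInf {x : ENNReal | ∃ μ : ℝ, 0 ≤ μ ∧ 1 < rho r ℓ μ ∧ x = ENNReal.ofReal μ}

theorem thr_upper (hnorm : NormStm) (hlow : LowStm) (hsq : SqStm) (k : ℕ) (hk : 1 ≤ k) :
    ∃ C : ℝ, 0 < C ∧ ∀ ℓ : ℕ, k ≤ ℓ →
      thr (2 * k) ℓ ≤ ENNReal.ofReal (C * (ℓ : ℝ) ^ (-(((2 * k : ℕ) : ℝ) - 2) / 4)) := by
  obtain ⟨c, hc, h⟩ := big hnorm hlow hsq k hk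
  refine ⟨2 / c, by positivity, fun ℓ hkl => ?_⟩
  have hlR : (0 : ℝ) < ℓ := by exact_mod_cast (lt_of_lt_of_le hk hkl)
  refine sInf_le ⟨2 / c * (ℓ : ℝ) ^ (-(((2 * k : ℕ) : ℝ) - 2) / 4), by positivity, ?_, rfl⟩
  have h2 := h ℓ hkl (2 / c * (ℓ : ℝ) ^ (-(((2 * k : ℕ) : ℝ) - 2) / 4)) (by positivity)
  have e : c * (2 / c * (ℓ : ℝ) ^ (-(((2 * k : ℕ) : ℝ) - 2) / 4)) *
      (ℓ : ℝ) ^ (((k : ℝ) - 1) / 2) = 2 := by
    have : (ℓ : ℝ) ^ (-(((2 * k : ℕ) : ℝ) - 2) / 4) * (ℓ : ℝ) ^ (((k : ℝ) - 1) / 2) = 1 := by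
      rw [← Real.rpow_add hlR]
      have : -(((2 * k : ℕ) : ℝ) - 2) / 4 + ((k : ℝ) - 1) / 2 = 0 := by push_cast; ring
      rw [this, Real.rpow_zero]
    calc c * (2 / c * (ℓ : ℝ) ^ (-(((2 * k : ℕ) : ℝ) - 2) / 4)) * (ℓ : ℝ) ^ (((k : ℝ) - 1) / 2)
        = 2 * ((ℓ : ℝ) ^ (-(((2 * k : ℕ) : ℝ) - 2) / 4) * (ℓ : ℝ) ^ (((k : ℝ) - 1) / 2)) := by
          field_simp
      _ = 2 := by rw [this, mul_one]
  rw [e] at h2
  have h3 : (((2 : ℝ)) : EReal) ≤ rho (2 * k) ℓ (2 / c * (ℓ : ℝ) ^ (-(((2 * k : ℕ) : ℝ) - 2) / 4)) := by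
    refine le_liminf_of_le (by isBoundedDefault) ?_
    filter_upwards [h2] with n hn
    exact_mod_cast hn
  refine lt_of_lt_of_le ?_ h3
  exact_mod_cast (by norm_num : (1 : ℝ) < 2)

theorem thr_lower (hcm : CMStm) (hchi : ChiStm) (hvar : VarStm) (hsq : SqStm) (hi : IntStm)
    (ℓ : ℕ) (hl : 1 ≤ ℓ) : 1 ≤ thr 2 ℓ := by
  refine le_sInf ?_
  rintro x ⟨μ, h0, h1, rfl⟩
  by_contra hlt
  push Not at hlt
  have hμ : μ < 1 := by
    by_contra hge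
    push Not at hge
    have : (1 : ENNReal) ≤ ENNReal.ofReal μ := by
      rw [ENNReal.one_le_ofReal]; exact hge
    exact absurd hlt (not_lt.2 this)
  have h2 : rho 2 ℓ μ ≤ 1 := by
    refine EReal.le_of_forall_lt_iff_le.1 fun z hz => ?_
    have hz' : (1 : ℝ) < z := by exact_mod_cast hz
    have h3 := two hcm hchi hvar hsq hi ℓ hl μ h0 hμ (z - 1) (by linarith)
    have h4 : ∀ᶠ n : ℕ in atTop,
        ((E n 2 ℓ (μ * (n : ℝ) ^ (-((2 : ℕ) : ℝ) / 4)) / E n 2 ℓ 0 : ℝ) : EReal) ≤ (z : EReal) := by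
      filter_upwards [h3] with n hn
      exact_mod_cast (by linarith : E n 2 ℓ (μ * (n : ℝ) ^ (-((2 : ℕ) : ℝ) / 4)) / E n 2 ℓ 0 ≤ z)
    exact liminf_le_of_frequently_le h4.frequently (by isBoundedDefault)
  exact absurd h1 (not_lt.2 h2)

/-- The answer to Q1: the threshold tends to zero exactly for `r ≥ 4`. -/
theorem main (hnorm : NormStm) (hlow : LowStm) (hcm : CMStm) (hchi : ChiStm) (hvar : VarStm)
    (hsq : SqStm) (hi : IntStm) (r : ℕ) (hr : 2 ≤ r) (hev : Even r) :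
    (∃ C : ℝ, 0 < C ∧ ∀ ℓ : ℕ, r / 2 ≤ ℓ →
      thr r ℓ ≤ ENNReal.ofReal (C * (ℓ : ℝ) ^ (-((r : ℝ) - 2) / 4))) ∧
    (Tendsto (fun ℓ : ℕ => thr r ℓ) atTop (𝓝 0) ↔ 4 ≤ r) ∧
    (r = 2 → ∀ ℓ : ℕ, 1 ≤ ℓ → 1 ≤ thr r ℓ) := by
  obtain ⟨k, hk⟩ := hev
  obtain rfl : r = 2 * k := by omega
  have hk1 : 1 ≤ k := by omega
  obtain ⟨C, hC, h⟩ := thr_upper hnorm hlow hsq k hk1
  refine ⟨⟨C, hC, fun ℓ hl => h ℓ (by omega)⟩, ⟨?_, ?_⟩, ?_⟩
  · intro ht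
    by_contra hlt
    obtain rfl : k = 1 := by omega
    have h1 : ∀ᶠ ℓ : ℕ in atTop, (1 : ENNReal) ≤ thr (2 * 1) ℓ := by
      filter_upwards [eventually_ge_atTop 1] with ℓ hl
      exact thr_lower hcm hchi hvar hsq hi ℓ hl
    have h2 : (1 : ENNReal) ≤ 0 := ge_of_tendsto ht h1
    exact absurd h2 (by norm_num)
  · intro h4
    have hk2 : 2 ≤ k := by omega
    have hlim : Tendsto (fun ℓ : ℕ => C * (ℓ : ℝ) ^ (-(((2 * k : ℕ) : ℝ) - 2) / 4)) atTop (𝓝 0) := by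
      have hpos : 0 < (((2 * k : ℕ) : ℝ) - 2) / 4 := by
        have : (2 : ℝ) ≤ k := by exact_mod_cast hk2
        push_cast
        linarith
      have h5 := (tendsto_rpow_neg_atTop hpos).comp tendsto_natCast_atTop_atTop
      have h6 := h5.const_mul C
      rw [mul_zero] at h6
      refine h6.congr fun ℓ => ?_
      simp only [Function.comp_apply]
      congr 2
      ring
    have hlim2 : Tendsto (fun ℓ : ℕ =>
        ENNReal.ofReal (C * (ℓ : ℝ) ^ (-(((2 * k : ℕ) : ℝ) - 2) / 4))) atTop (𝓝 0) := by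
      have := ENNReal.tendsto_ofReal hlim
      rwa [ENNReal.ofReal_zero] at this
    refine tendsto_of_tendsto_of_tendsto_of_le_of_le' tendsto_const_nhds hlim2
      (Eventually.of_forall fun _ => zero_le) ?_
    filter_upwards [eventually_ge_atTop k] with ℓ hl
    exact h ℓ hl
  · intro h2 ℓ hl
    obtain rfl : k = 1 := by omega
    exact thr_lower hcm hchi hvar hsq hi ℓ hl

end Q289.KK
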